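import Pool.Agent.Helper79K9.SPC.Main
import Pool.Agent.Helper79K9.SPC.Fin
import Pool.Agent.Helper79K9.SPC.Card
import Pool.Agent.Helper79K9.SPC.Dens
import Pool.Agent.Helper79K9.SPC.Key

/-!
# The simultaneous packing and covering constant of a super-reflexive space is less than 2
-/

set_option autoImplicit false

namespace Pool.Agent.Results.MP_a7a5c5_an.SuperReflexiveSpaces

open Set

universe u

/-- `P` is `r`-separated: distinct points of `P` have distance at least `r`. -/
def Separated {X : Type u} [NormedAddCommGroup X] (r : ℝ) (P : Set X) : Prop :=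
  ∀ x ∈ P, ∀ y ∈ P, x ≠ y → r ≤ ‖x - y‖

/-- `P` is `r`-dense: every point of `X` is within `r` of some point of `P`. -/
def RDense {X : Type u} [NormedAddCommGroup X] (r : ℝ) (P : Set X) : Prop :=
  ∀ x : X, ∃ p ∈ P, ‖x - p‖ ≤ r

/-- the simultaneous packing and covering constant of `X` -/
noncomputable def gamma (X : Type u) [NormedAddCommGroup X] : ℝ :=
  sInf {r : ℝ | 0 < r ∧ ∃ P : Set X, Separated 2 P ∧ RDense r P}

/-- `ν` is a norm on `E` which is equivalent to the given one. -/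
def IsEquivalentNorm {E : Type u} [NormedAddCommGroup E] [NormedSpace ℝ E]
    (ν : Seminorm ℝ E) : Prop :=
  ∃ C : ℝ, 0 < C ∧ ∀ x, ν x ≤ C * ‖x‖ ∧ ‖x‖ ≤ C * ν x

/-- The norm `ν` is uniformly convex: for every `ε` in `(0, 2]` there is `δ > 0` such that
`ν ((x + y) / 2) ≤ 1 - δ` for all `x, y` in the unit ball of `ν` with `ν (x - y) ≥ ε`. -/
def IsUniformlyConvex {E : Type u} [NormedAddCommGroup E] [NormedSpace ℝ E]
    (ν : Seminorm ℝ E) : Prop :=
  ∀ ε : ℝ, 0 < ε → ε ≤ 2 → ∃ δ : ℝ, 0 < δ ∧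
    ∀ x y : E, ν x ≤ 1 → ν y ≤ 1 → ε ≤ ν (x - y) → ν ((1 / 2 : ℝ) • (x + y)) ≤ 1 - δ

/-- `X` is super-reflexive: the completion of `X` admits an equivalent uniformly convex norm. -/
def SuperReflexive (X : Type u) [NormedAddCommGroup X] [NormedSpace ℝ X] : Prop :=
  ∃ ν : Seminorm ℝ (UniformSpace.Completion X), IsEquivalentNorm ν ∧ IsUniformlyConvex ν

/-- Every super-reflexive real normed space `X` (separable or not, complete or not) satisfies
`γ(X) < 2`. -/
theorem result (X : Type u) [NormedAddCommGroup X] [NormedSpace ℝ X] (hX : SuperReflexive X) :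
    gamma X < 2 := by
  obtain ⟨ν, ⟨C, hC, hν⟩, huc⟩ := hX
  obtain ⟨δ, hδ, hδ'⟩ := huc (1 / 4) (by norm_num) (by norm_num)
  let ν' : Seminorm ℝ X := ν.comp (UniformSpace.Completion.toComplₗᵢ (𝕜 := ℝ) (E := X)).toLinearMap
  have hν' : ∀ x : X, ν' x = ν (x : UniformSpace.Completion X) := fun x => rfl
  have huc' : Pool.Agent.Helper79K9.SPC.UC ν' (min δ 1) := by
    have hk0 : 0 < min δ 1 := lt_min hδ one_pos
    have hk1 : min δ 1 ≤ 1 := min_le_right _ _
    have hkδ : min δ 1 ≤ δ := min_le_left _ _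
    refine ⟨hk0, hk1, fun x y hx hy hxy => ?_⟩
    set k := min δ 1 with hk
    rw [hν'] at hx hy hxy ⊢
    have hc : (0 : ℝ) < (1 + k)⁻¹ := by positivity
    have h1 : ν ((1 + k)⁻¹ • (x : UniformSpace.Completion X)) ≤ 1 := by
      rw [map_smul_eq_mul, Real.norm_of_nonneg hc.le, inv_mul_le_iff₀ (by linarith), mul_one]
      exact hx
    have h2 : ν ((1 + k)⁻¹ • (y : UniformSpace.Completion X)) ≤ 1 := by
      rw [map_smul_eq_mul, Real.norm_of_nonneg hc.le, inv_mul_le_iff₀ (by linarith), mul_one]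
      exact hy
    have h3 : 1 / 4 ≤ ν ((1 + k)⁻¹ • (x : UniformSpace.Completion X) -
        (1 + k)⁻¹ • (y : UniformSpace.Completion X)) := by
      rw [← smul_sub, map_smul_eq_mul, Real.norm_of_nonneg hc.le,
        ← UniformSpace.Completion.coe_sub, le_inv_mul_iff₀ (by linarith)]
      linarith
    have h4 := hδ' _ _ h1 h2 h3
    rw [← smul_add, smul_comm, map_smul_eq_mul, Real.norm_of_nonneg hc.le,
      inv_mul_le_iff₀ (by linarith)] at h4
    have h5 : ((((1 / 2 : ℝ) • (x + y) : X)) : UniformSpace.Completion X) =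
        (1 / 2 : ℝ) • ((x : UniformSpace.Completion X) + (y : UniformSpace.Completion X)) := by
      rw [UniformSpace.Completion.coe_smul, UniformSpace.Completion.coe_add]
    rw [h5]
    refine lt_of_le_of_lt h4 ?_
    nlinarith
  obtain ⟨r, hr0, hr2, P, hP1, hP2⟩ := Pool.Agent.Helper79K9.SPC.main
    Pool.Agent.Helper79K9.SPC.fin Pool.Agent.Helper79K9.SPC.card Pool.Agent.Helper79K9.SPC.dens
    Pool.Agent.Helper79K9.SPC.key X ν' C (min δ 1) hC
    (fun x => by
      rw [hν', ← UniformSpace.Completion.norm_coe]; exact (hν _).1)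
    (fun x => by
      rw [hν', ← UniformSpace.Completion.norm_coe]; exact (hν _).2) huc'
  refine lt_of_le_of_lt (csInf_le ⟨0, fun r hr => hr.1.le⟩ ?_) hr2
  exact ⟨hr0, P, hP1, hP2⟩

end Pool.Agent.Results.MP_a7a5c5_an.SuperReflexiveSpaces
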